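import Pool.Agent.HUK.Stmts

/-! HUK, module CSN: modulo an open normal subgroup the geometric Galois group contains the Galois group
of `k(t)`, if the number field `k` is large. -/

set_option autoImplicit false

namespace Pool.Agent.HUK.H82

open Polynomial NumberField Matrix Pool.Agent.MTL Pool.Agent.HIK Pool.Agent.HIP Pool.Agent.MTPN
  Pool.Agent.MTN

/-- the field generated by the constants -/
noncomputable abbrev EC : IntermediateField (RatFunc ℚ) Om :=
  IntermediateField.adjoin (RatFunc ℚ) {c : Om | IsAlgebraic ℚ c}

theorem ggeo_eq : Ggeo = EC.fixingSubgroup := by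
  apply le_antisymm
  · rw [← IntermediateField.le_iff_le, IntermediateField.adjoin_le_iff]
    intro c hc σ
    exact σ.2 c hc
  · intro σ hσ x hx
    exact (IntermediateField.mem_fixingSubgroup_iff _ _).1 hσ x
      (IntermediateField.subset_adjoin _ _ hx)

/-- module CSN -/
theorem csn : CsnStmt := by
  classical
  intro N hN hop
  let M : Subgroup GT := Ggeo ⊔ N
  have hMo : IsOpen (M : Set GT) := Subgroup.isOpen_mono (le_sup_right : N ≤ M) hop
  have hMc : IsClosed (M : Set GT) := Subgroup.isClosed_of_isOpen M hMo
  have hfix := InfiniteGalois.fixingSubgroup_fixedField (k := RatFunc ℚ) (K := Om) ⟨M, hMc⟩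
  change (IntermediateField.fixedField M).fixingSubgroup = M at hfix
  have hfin : FiniteDimensional (RatFunc ℚ) (IntermediateField.fixedField M) := by
    apply (InfiniteGalois.isOpen_iff_finite _).1
    rw [hfix]
    exact hMo
  have hle : IntermediateField.fixedField M ≤ EC := by
    have h1 := InfiniteGalois.fixedField_fixingSubgroup EC
    have h2 : IntermediateField.fixedField M ≤ IntermediateField.fixedField EC.fixingSubgroup := by
      intro x hx σ
      exact hx ⟨σ, (le_sup_left : Ggeo ≤ M) (ggeo_eq.ge σ.2)⟩
    rwa [h1] at h2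
  obtain ⟨S, hS⟩ : (IntermediateField.fixedField M).FG :=
    IntermediateField.essFiniteType_iff.1 inferInstance
  have hSel : ∀ x ∈ S, ∃ T : Finset Om, (T : Set Om) ⊆ {c : Om | IsAlgebraic ℚ c} ∧
      x ∈ IntermediateField.adjoin (RatFunc ℚ) (T : Set Om) := by
    intro x hx
    apply IntermediateField.exists_finset_of_mem_adjoin
    apply hle
    rw [← hS]
    exact IntermediateField.subset_adjoin _ _ hx
  choose! T hT hxT using hSel
  let U : Finset Om := S.biUnion T
  have hU : ∀ c ∈ (U : Set Om), IsIntegral ℚ c := by
    intro c hc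
    obtain ⟨x, hx, hc⟩ := Finset.mem_biUnion.1 (Finset.mem_coe.1 hc)
    exact (hT x hx hc).isIntegral
  let k := IntermediateField.adjoin ℚ (U : Set Om)
  have hk : FiniteDimensional ℚ k := IntermediateField.finiteDimensional_adjoin hU
  have hnf : NumberField k := by
    exact @NumberField.mk k _ inferInstance hk
  refine ⟨k, inferInstance, hnf, k.val.toRingHom, fun γ hγ => ?_⟩
  have hγM : γ ∈ M := by
    rw [← hfix, IntermediateField.mem_fixingSubgroup_iff]
    intro x hx
    rw [← hS] at hx
    have h1 : IntermediateField.adjoin (RatFunc ℚ) (S : Set Om) ≤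
        IntermediateField.fixedField (Subgroup.zpowers γ) := by
      rw [IntermediateField.adjoin_le_iff]
      intro y hy
      have h2 : IntermediateField.adjoin (RatFunc ℚ) (T y : Set Om) ≤
          IntermediateField.fixedField (Subgroup.zpowers γ) := by
        rw [IntermediateField.adjoin_le_iff]
        intro c hc
        have hcU : c ∈ (U : Set Om) :=
          Finset.mem_coe.2 (Finset.mem_biUnion.2 ⟨y, hy, hc⟩)
        have h3 : γ c = c := hγ ⟨c, IntermediateField.subset_adjoin _ _ hcU⟩
        have h4 : Subgroup.zpowers γ ≤ MulAction.stabilizer GT c := by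
          rw [Subgroup.zpowers_le]
          exact h3
        intro σ
        exact h4 σ.2
      exact h2 (hxT y hy)
    exact h1 hx ⟨γ, Subgroup.mem_zpowers γ⟩
  have : N.Normal := hN
  obtain ⟨γ', hγ', n, hn, rfl⟩ := Subgroup.mem_sup_of_normal_right.1 hγM
  refine ⟨γ', hγ', ?_⟩
  rw [inv_mul_cancel_left]
  exact hn

end Pool.Agent.HUK.H82
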